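import Pool.Agent.H534R3.CircNull

/-! # Large Haar null sets in sets of homeomorphisms which contain a circle group

A strengthening of `Pool.Agent.H534R3.CircNull.decompose`: the Haar null `G_δ` set can be chosen to
contain any countable union of sets of small metric entropy, for one and the same measure. -/

set_option autoImplicit false

open MeasureTheory Filter Topology
open scoped ENNReal

namespace Pool.Agent.Y364.HN

open Pool.Agent.H534R3.CircNull (homeo homeo_apply small_measure)

variable {X : Type} [MetricSpace X] [CompactSpace X]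

/-- For arbitrarily small `ε` the set `S` is covered by `N` balls of radius `ε` for the uniform
distance, where `N * ε` is arbitrarily small. -/
def Thin (S : Set C(X, X)) : Prop :=
  ∀ δ : ℝ, 0 < δ → ∃ ε : ℝ, 0 < ε ∧ ∃ F : Finset C(X, X),
    (∀ b ∈ S, ∃ f ∈ F, dist b f < ε) ∧ (F.card : ℝ) * ε < δ

theorem thin_singleton (f : C(X, X)) : Thin ({f} : Set C(X, X)) := by
  intro δ hδ
  refine ⟨δ / 2, by positivity, {f}, ?_, by simp; linarith⟩
  intro b hb
  refine ⟨f, by simp, ?_⟩
  rw [Set.mem_singleton_iff.1 hb, dist_self]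
  positivity

theorem key (G : Set C(X, X)) (hG : ∀ f ∈ G, Function.Bijective f)
    (R : UnitAddCircle → C(X, X)) (hRc : Continuous R) (hRG : ∀ s, R s ∈ G)
    (hR0 : R 0 = ContinuousMap.id X) (hRadd : ∀ s t, R (s + t) = (R s).comp (R t))
    (ρ : ℝ) (hρ : 0 < ρ)
    (hbig : ∀ g : X ≃ₜ X, ∃ s, ρ ≤ dist ((g : C(X, X)).comp (R s)) (g : C(X, X)))
    (mG : MeasurableSpace G) (hm : mG = borel G) (k : ℕ) (hk : 0 < k) (f₀ : C(X, X)) (g h : G) :
    (k : ℝ≥0∞) * (Measure.map (fun s => (⟨R s, hRG s⟩ : G)) volume : Measure G)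
      {x : G | ∃ b : G, dist (b : C(X, X)) f₀ < ρ / (3 * k) ∧
        (x : C(X, X)) = (g : C(X, X)).comp ((b : C(X, X)).comp (h : C(X, X)))} ≤ 1 := by
  have hbs : BorelSpace G := ⟨hm⟩
  set ι : UnitAddCircle → G := fun s => ⟨R s, hRG s⟩ with hι
  have hιc : Continuous ι := hRc.subtype_mk _
  set μ : Measure G := Measure.map ι volume with hμ
  set g' := (homeo (g : C(X, X)) (hG _ g.2)).symm with hg'
  set h' := (homeo (h : C(X, X)) (hG _ h.2)).symm with hh'
  have hgg : ∀ x, g' ((g : C(X, X)) x) = x := fun x => (homeo _ _).symm_apply_apply x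
  have hhh : ∀ x, (h : C(X, X)) (h' x) = x := fun x => (homeo _ _).apply_symm_apply x
  have hhh' : ∀ x, h' ((h : C(X, X)) x) = x := fun x => (homeo _ _).symm_apply_apply x
  set A : Set G := {x : G | dist (((g' : C(X, X)).comp (x : C(X, X))).comp (h' : C(X, X))) f₀ ≤
    ρ / (3 * k)} with hA
  have hAc : IsClosed A := by
    refine isClosed_le ?_ continuous_const
    refine Continuous.dist ?_ continuous_const
    exact (ContinuousMap.continuous_precomp _).comp
      ((ContinuousMap.continuous_postcomp _).comp continuous_subtype_val)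
  have hsub : {x : G | ∃ b : G, dist (b : C(X, X)) f₀ < ρ / (3 * k) ∧
      (x : C(X, X)) = (g : C(X, X)).comp ((b : C(X, X)).comp (h : C(X, X)))} ⊆ A := by
    rintro x ⟨b, hb, hx⟩
    change dist (((g' : C(X, X)).comp (x : C(X, X))).comp (h' : C(X, X))) f₀ ≤ ρ / (3 * k)
    have : ((g' : C(X, X)).comp (x : C(X, X))).comp (h' : C(X, X)) = (b : C(X, X)) := by
      ext q
      rw [hx]
      change g' ((g : C(X, X)) ((b : C(X, X)) ((h : C(X, X)) (h' q)))) = _
      rw [hgg, hhh]
    rw [this]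
    exact hb.le
  have hμA : μ A = volume (ι ⁻¹' A) := Measure.map_apply hιc.measurable hAc.measurableSet
  refine (mul_le_mul_right (measure_mono hsub) _).trans ?_
  rw [hμA]
  set F : UnitAddCircle → ℝ := fun s => dist ((g' : C(X, X)).comp (R s)) (g' : C(X, X)) with hF
  have hFle : ∀ s t, dist ((g' : C(X, X)).comp (R s)) ((g' : C(X, X)).comp (R t)) ≤ F (s - t) := by
    intro s t
    rw [ContinuousMap.dist_le dist_nonneg]
    intro q
    have h1 : R s = (R (s - t)).comp (R t) := by rw [← hRadd, sub_add_cancel]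
    rw [h1]
    change dist (g' (R (s - t) (R t q))) (g' (R t q)) ≤ _
    exact ContinuousMap.dist_apply_le_dist (f := (g' : C(X, X)).comp (R (s - t)))
      (g := (g' : C(X, X))) (R t q)
  refine small_measure F ?_ ?_ ?_ ρ hρ (hbig g') k hk _ (hιc.measurable hAc.measurableSet) ?_
  · exact Continuous.dist ((ContinuousMap.continuous_postcomp _).comp hRc) continuous_const
  · simp [hF, hR0]
  · intro s t
    refine le_trans ?_ (hFle s t)
    exact abs_dist_sub_le _ _ _
  · intro s hs t ht
    have hs' : dist (((g' : C(X, X)).comp (R s)).comp (h' : C(X, X))) f₀ ≤ ρ / (3 * k) := hs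
    have ht' : dist (((g' : C(X, X)).comp (R t)).comp (h' : C(X, X))) f₀ ≤ ρ / (3 * k) := ht
    have h1 : dist (((g' : C(X, X)).comp (R s)).comp (h' : C(X, X)))
        (((g' : C(X, X)).comp (R t)).comp (h' : C(X, X))) ≤ 2 * (ρ / (3 * k)) := by
      refine (dist_triangle_right _ _ f₀).trans ?_
      linarith
    have h0 : 0 ≤ 2 * (ρ / (3 * (k : ℝ))) := by positivity
    refine le_trans ?_ h1
    simp only [hF]
    rw [ContinuousMap.dist_le dist_nonneg]
    intro q
    set q' := R (-t) q with hq'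
    have e1 : R (s - t) q = R s q' := by
      rw [hq', sub_eq_add_neg, hRadd]
      rfl
    have e2 : q = R t q' := by
      have : (R t).comp (R (-t)) = ContinuousMap.id X := by rw [← hRadd, add_neg_cancel, hR0]
      have := congrArg (fun f : C(X, X) => f q) this
      exact this.symm
    have e3 := ContinuousMap.dist_apply_le_dist (f := ((g' : C(X, X)).comp (R s)).comp (h' : C(X, X)))
      (g := ((g' : C(X, X)).comp (R t)).comp (h' : C(X, X))) ((h : C(X, X)) q')
    change dist (g' (R s (h' ((h : C(X, X)) q')))) (g' (R t (h' ((h : C(X, X)) q')))) ≤ _ at e3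
    rw [hhh'] at e3
    change dist (g' (R (s - t) q)) (g' q) ≤ _
    rw [e1]
    conv_lhs => rw [e2]
    exact e3

/-- Thin sets have neighbourhoods all of whose two-sided translates have small measure. -/
theorem nbhd (G : Set C(X, X)) (hG : ∀ f ∈ G, Function.Bijective f)
    (R : UnitAddCircle → C(X, X)) (hRc : Continuous R) (hRG : ∀ s, R s ∈ G)
    (hR0 : R 0 = ContinuousMap.id X) (hRadd : ∀ s t, R (s + t) = (R s).comp (R t))
    (ρ : ℝ) (hρ : 0 < ρ)
    (hbig : ∀ g : X ≃ₜ X, ∃ s, ρ ≤ dist ((g : C(X, X)).comp (R s)) (g : C(X, X)))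
    (mG : MeasurableSpace G) (hm : mG = borel G) (S : Set G) (hS : Thin (Subtype.val '' S))
    (η : ℝ) (hη : 0 < η) :
    ∃ U : Set G, IsOpen U ∧ S ⊆ U ∧ ∀ g h : G,
      (Measure.map (fun s => (⟨R s, hRG s⟩ : G)) volume : Measure G)
        {x : G | ∃ b ∈ U, (x : C(X, X)) = (g : C(X, X)).comp ((b : C(X, X)).comp (h : C(X, X)))} ≤
          ENNReal.ofReal η := by
  classical
  obtain ⟨ε, hε, F, hF, hc⟩ := hS (min (ρ / 6) (ρ * η / 6)) (by positivity)
  have hc1 : (F.card : ℝ) * ε < ρ / 6 := hc.trans_le (min_le_left _ _)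
  have hc2 : (F.card : ℝ) * ε < ρ * η / 6 := hc.trans_le (min_le_right _ _)
  refine ⟨{b : G | ∃ f ∈ F, dist (b : C(X, X)) f < ε}, ?_, ?_, ?_⟩
  · have : {b : G | ∃ f ∈ F, dist (b : C(X, X)) f < ε} =
        ⋃ f ∈ F, {b : G | dist (b : C(X, X)) f < ε} := by
      ext b; simp
    rw [this]
    exact isOpen_biUnion fun f _ => isOpen_lt (continuous_subtype_val.dist continuous_const)
      continuous_const
  · intro b hb
    exact hF b ⟨b, hb, rfl⟩
  · intro g h
    rcases F.eq_empty_or_nonempty with rfl | hne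
    · have : {x : G | ∃ b ∈ {b : G | ∃ f ∈ (∅ : Finset C(X, X)), dist (b : C(X, X)) f < ε},
          (x : C(X, X)) = (g : C(X, X)).comp ((b : C(X, X)).comp (h : C(X, X)))} = ∅ := by
        ext x
        simp
      rw [this]
      simp
    · have hcard : (1 : ℝ) ≤ F.card := by exact_mod_cast hne.card_pos
      have hερ : ε ≤ ρ / 6 := by nlinarith
      set K : ℕ := ⌊ρ / (3 * ε)⌋₊ with hK
      have h2 : 2 ≤ ρ / (3 * ε) := by
        rw [le_div_iff₀ (by positivity)]
        linarith
      have hKle : (K : ℝ) ≤ ρ / (3 * ε) := Nat.floor_le (by positivity)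
      have hKge : ρ / (6 * ε) ≤ K := by
        have h3 := Nat.lt_floor_add_one (ρ / (3 * ε))
        have h4 : ρ / (3 * ε) = 2 * (ρ / (6 * ε)) := by field_simp; ring
        rw [← hK] at h3
        have h5 : 1 ≤ ρ / (6 * ε) := by linarith
        linarith
      have hKpos : 0 < (K : ℝ) := lt_of_lt_of_le (by positivity) hKge
      have hK0 : 0 < K := by exact_mod_cast hKpos
      have hεK : ε ≤ ρ / (3 * K) := by
        rw [le_div_iff₀ (by positivity)]
        rw [le_div_iff₀ (by positivity)] at hKle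
        linarith
      have hsub : {x : G | ∃ b ∈ {b : G | ∃ f ∈ F, dist (b : C(X, X)) f < ε},
          (x : C(X, X)) = (g : C(X, X)).comp ((b : C(X, X)).comp (h : C(X, X)))} ⊆
          ⋃ f ∈ F, {x : G | ∃ b : G, dist (b : C(X, X)) f < ρ / (3 * K) ∧
            (x : C(X, X)) = (g : C(X, X)).comp ((b : C(X, X)).comp (h : C(X, X)))} := by
        rintro x ⟨b, ⟨f, hf, hbf⟩, hx⟩
        exact Set.mem_biUnion hf ⟨b, lt_of_lt_of_le hbf hεK, hx⟩
      refine (measure_mono hsub).trans ((measure_biUnion_finset_le _ _).trans ?_)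
      have hone : ∀ f ∈ F, (Measure.map (fun s => (⟨R s, hRG s⟩ : G)) volume : Measure G)
          {x : G | ∃ b : G, dist (b : C(X, X)) f < ρ / (3 * K) ∧
            (x : C(X, X)) = (g : C(X, X)).comp ((b : C(X, X)).comp (h : C(X, X)))} ≤
          (K : ℝ≥0∞)⁻¹ := by
        intro f _
        have h1 := key G hG R hRc hRG hR0 hRadd ρ hρ hbig mG hm K hK0 f g h
        rw [ENNReal.le_inv_iff_mul_le, mul_comm]
        exact h1
      refine (Finset.sum_le_sum hone).trans ?_
      rw [Finset.sum_const, nsmul_eq_mul]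
      have h6 : (F.card : ℝ≥0∞) * (K : ℝ≥0∞)⁻¹ = ENNReal.ofReal ((F.card : ℝ) * (K : ℝ)⁻¹) := by
        rw [ENNReal.ofReal_mul (by positivity), ENNReal.ofReal_natCast,
          ENNReal.ofReal_inv_of_pos hKpos, ENNReal.ofReal_natCast]
      rw [h6]
      refine ENNReal.ofReal_le_ofReal ?_
      have h7 : (K : ℝ)⁻¹ ≤ 6 * ε / ρ := by
        rw [inv_le_comm₀ hKpos (by positivity)]
        refine le_trans (le_of_eq ?_) hKge
        field_simp
      calc (F.card : ℝ) * (K : ℝ)⁻¹ ≤ F.card * (6 * ε / ρ) := by gcongr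
        _ = 6 * (F.card * ε) / ρ := by ring
        _ ≤ 6 * (ρ * η / 6) / ρ := by gcongr
        _ = η := by field_simp

/-- **General theorem.** Let `G` be a set of homeomorphisms of the compact metric space `X` which
contains a circle group `R` none of whose translates `g R` is uniformly small. Then there is one
Borel probability measure on `G` such that every countable union of thin subsets of `G` is contained
in a dense `G_δ` subset of `G` all of whose two-sided translates are null. -/
theorem large (G : Set C(X, X)) (hG : ∀ f ∈ G, Function.Bijective f)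
    (R : UnitAddCircle → C(X, X)) (hRc : Continuous R) (hRG : ∀ s, R s ∈ G)
    (hR0 : R 0 = ContinuousMap.id X) (hRadd : ∀ s t, R (s + t) = (R s).comp (R t))
    (ρ : ℝ) (hρ : 0 < ρ)
    (hbig : ∀ g : X ≃ₜ X, ∃ s, ρ ≤ dist ((g : C(X, X)).comp (R s)) (g : C(X, X)))
    (mG : MeasurableSpace G) (hm : mG = borel G) :
    ∃ μ : Measure G, IsProbabilityMeasure μ ∧ ∀ S : ℕ → Set G, (∀ n, Thin (Subtype.val '' S n)) →
      ∃ N : Set G, IsGδ N ∧ Dense N ∧ (∀ n, S n ⊆ N) ∧ ∀ g h : G,
        μ {x : G | ∃ b ∈ N, (x : C(X, X)) = (g : C(X, X)).comp ((b : C(X, X)).comp (h : C(X, X)))}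
          = 0 := by
  have hbs : BorelSpace G := ⟨hm⟩
  set ι : UnitAddCircle → G := fun s => ⟨R s, hRG s⟩ with hι
  have hιc : Continuous ι := hRc.subtype_mk _
  have hprob : IsProbabilityMeasure (volume : Measure UnitAddCircle) := ⟨by
    rw [AddCircle.measure_univ, ENNReal.ofReal_one]⟩
  refine ⟨Measure.map ι volume, Measure.isProbabilityMeasure_map hιc.aemeasurable, ?_⟩
  intro S hS
  have hne : Nonempty G := ⟨ι 0⟩
  -- add a dense sequence
  set S' : ℕ → Set G := fun n => if Even n then S (n / 2) else {TopologicalSpace.denseSeq G (n / 2)}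
    with hS'
  have hS't : ∀ n, Thin (Subtype.val '' S' n) := by
    intro n
    by_cases hn : Even n
    · simp only [hS', hn, if_true]
      exact hS _
    · simp only [hS', hn, if_false, Set.image_singleton]
      exact thin_singleton _
  obtain ⟨ε, hε, hεs⟩ := ENNReal.exists_pos_sum_of_countable (ε := 1) one_ne_zero ℕ
  have hU : ∀ k n : ℕ, ∃ U : Set G, IsOpen U ∧ S' n ⊆ U ∧ ∀ g h : G,
      (Measure.map ι volume : Measure G) {x : G | ∃ b ∈ U,
        (x : C(X, X)) = (g : C(X, X)).comp ((b : C(X, X)).comp (h : C(X, X)))} ≤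
          (ε n : ℝ≥0∞) / (k + 1) := by
    intro k n
    have hεn : 0 < ((ε n : NNReal) : ℝ) := by exact_mod_cast hε n
    obtain ⟨U, h1, h2, h3⟩ := nbhd G hG R hRc hRG hR0 hRadd ρ hρ hbig mG hm (S' n) (hS't n)
      ((ε n : ℝ) / (k + 1)) (by positivity)
    refine ⟨U, h1, h2, fun g h => (h3 g h).trans (le_of_eq ?_)⟩
    rw [ENNReal.ofReal_div_of_pos (by positivity), ENNReal.ofReal_coe_nnreal]
    congr 1
    rw [show ((k : ℝ) + 1) = ((k + 1 : ℕ) : ℝ) by push_cast; ring, ENNReal.ofReal_natCast]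
    push_cast
    ring
  choose U hUo hUn hUμ using hU
  set N : Set G := ⋂ k, ⋃ n, U k n with hN
  have hopen : ∀ k, IsOpen (⋃ n, U k n) := fun k => isOpen_iUnion fun n => hUo k n
  have hsubN : ∀ n, S' n ⊆ N := by
    intro n b hb
    exact Set.mem_iInter.2 fun k => Set.mem_iUnion.2 ⟨n, hUn k n hb⟩
  refine ⟨N, IsGδ.iInter_of_isOpen hopen, ?_, ?_, ?_⟩
  · refine (TopologicalSpace.denseRange_denseSeq G).mono ?_
    rintro _ ⟨i, rfl⟩
    refine hsubN (2 * i + 1) ?_
    have h1 : ¬ Even (2 * i + 1) := by simp [Nat.even_add_one]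
    have h2 : (2 * i + 1) / 2 = i := by omega
    simp only [hS', h1, if_false, h2, Set.mem_singleton_iff]
  · intro n b hb
    refine hsubN (2 * n) ?_
    have h1 : Even (2 * n) := even_two_mul n
    have h2 : (2 * n) / 2 = n := by omega
    simp only [hS', h1, if_true, h2]
    exact hb
  · intro g h
    have hle : ∀ k : ℕ, (Measure.map ι volume : Measure G) {x : G | ∃ b ∈ N,
        (x : C(X, X)) = (g : C(X, X)).comp ((b : C(X, X)).comp (h : C(X, X)))} ≤ 1 / ((k : ℝ≥0∞) + 1) := by
      intro k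
      have hsub : {x : G | ∃ b ∈ N,
          (x : C(X, X)) = (g : C(X, X)).comp ((b : C(X, X)).comp (h : C(X, X)))} ⊆
          ⋃ n, {x : G | ∃ b ∈ U k n,
            (x : C(X, X)) = (g : C(X, X)).comp ((b : C(X, X)).comp (h : C(X, X)))} := by
        rintro x ⟨b, hb, hx⟩
        obtain ⟨n, hn⟩ := Set.mem_iUnion.1 (Set.mem_iInter.1 hb k)
        exact Set.mem_iUnion.2 ⟨n, b, hn, hx⟩
      refine (measure_mono hsub).trans ((measure_iUnion_le _).trans ?_)
      refine (ENNReal.tsum_le_tsum fun n => hUμ k n g h).trans ?_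
      simp_rw [div_eq_mul_inv]
      rw [ENNReal.tsum_mul_right]
      exact mul_le_mul_left hεs.le _
    refine le_antisymm ?_ bot_le
    refine ge_of_tendsto' (f := fun k : ℕ => 1 / ((k : ℝ≥0∞) + 1)) (x := atTop) ?_ hle
    have h1 : Tendsto (fun k : ℕ => ((k : ℝ≥0∞))⁻¹) atTop (𝓝 0) := ENNReal.tendsto_inv_nat_nhds_zero
    have h2 := h1.comp (tendsto_add_atTop_nat 1)
    refine h2.congr fun k => ?_
    simp

end Pool.Agent.Y364.HN
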